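import Pool.Agent.Q103.OP.Bas

/-!
# Project OP, job ISO
-/

set_option autoImplicit false

namespace Pool.Agent.Q274.OP

open Pool.Agent.Q103.OP Pool.Agent.Q103.OP.Bas Finset Polynomial Pool.Agent.W277.UH
open Pool.Agent.Y706.CH (bK)

universe u

variable {Ω : Type u} [Field Ω] (κ : Subfield Ω)

/-- polynomials with coefficients in `κ` -/
noncomputable def Ks : Subsemiring (Polynomial Ω) := lifts κ.subtype

lemma mem_Ks {P : (Polynomial Ω)} : P ∈ Ks κ ↔ ∀ n, P.coeff n ∈ κ := by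
  unfold Ks
  rw [lifts_iff_coeff_lifts]
  constructor
  · intro h n
    obtain ⟨y, hy⟩ := h n
    rw [← hy]
    exact y.2
  · intro h n
    exact ⟨⟨P.coeff n, h n⟩, rfl⟩

lemma C_mem {x : Ω} (hx : x ∈ κ) : C x ∈ Ks κ := by
  rw [mem_Ks]
  intro n
  rw [coeff_C]
  split
  · exact hx
  · exact κ.zero_mem

lemma X_mem : (X : (Polynomial Ω)) ∈ Ks κ := by
  rw [mem_Ks]
  intro n
  rw [coeff_X]
  split
  · exact κ.one_mem
  · exact κ.zero_mem

lemma hc_mem (n : ℕ) {A p q : (Polynomial Ω)} (hA : A ∈ Ks κ) (hp : p ∈ Ks κ) (hq : q ∈ Ks κ) :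
    hc n A p q ∈ Ks κ := by
  unfold hc hev
  apply Subsemiring.sum_mem
  intro i _
  refine Subsemiring.mul_mem _ (Subsemiring.mul_mem _ ?_ (Subsemiring.pow_mem _ hp _))
    (Subsemiring.pow_mem _ hq _)
  rw [coeff_map]
  exact C_mem κ ((mem_Ks κ).mp hA i)

/-- roots of a polynomial over an algebraically closed subfield -/
lemma root_mem [IsAlgClosed κ] {P : (Polynomial Ω)} (hP : P ∈ Ks κ) (h0 : P ≠ 0) {t : Ω}
    (ht : P.eval t = 0) : t ∈ κ := by
  obtain ⟨P0, hP0⟩ := (mem_lifts P).mp hP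
  have h1 : P0 ≠ 0 := by
    rintro rfl
    rw [Polynomial.map_zero] at hP0
    exact h0 hP0.symm
  have hint : IsIntegral κ t := by
    rw [← isAlgebraic_iff_isIntegral]
    refine ⟨P0, h1, ?_⟩
    rw [aeval_def, ← eval_map]
    have : (algebraMap κ Ω) = κ.subtype := rfl
    rw [this, hP0, ht]
  have h2 := minpoly.mem_range_of_degree_eq_one κ t
    (IsAlgClosed.degree_eq_one_of_irreducible κ (minpoly.irreducible hint))
  obtain ⟨y, hy⟩ := h2
  rw [← hy]
  exact y.2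

/-- proportional to a vector with coordinates in `κ` -/
def Kv (y : Ω × Ω) : Prop :=
  ∃ (α : Ω) (v : Ω × Ω), α ≠ 0 ∧ v.1 ∈ κ ∧ v.2 ∈ κ ∧ v ≠ 0 ∧ y = α • v

variable {κ}

lemma Kv_of_zero {y : Ω × Ω} (hy : y ≠ 0) (h2 : y.2 = 0) : Kv κ y := by
  have h1 : y.1 ≠ 0 := fun h => hy (Prod.ext h h2)
  refine ⟨y.1, (1, 0), h1, κ.one_mem, κ.zero_mem, ?_, ?_⟩
  · intro h
    exact one_ne_zero (congrArg Prod.fst h)
  · ext
    · simp
    · simp [h2]

lemma eq_smul {y : Ω × Ω} (h2 : y.2 ≠ 0) : y = y.2 • ((y.1 / y.2, 1) : Ω × Ω) := by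
  ext
  · simp only [Prod.smul_fst, smul_eq_mul]
    field_simp
  · simp

lemma Kv_of_mem {y : Ω × Ω} (h2 : y.2 ≠ 0) (h : y.1 / y.2 ∈ κ) : Kv κ y := by
  refine ⟨y.2, (y.1 / y.2, 1), h2, h, κ.one_mem, ?_, eq_smul h2⟩
  intro h
  exact one_ne_zero (congrArg Prod.snd h)

lemma not_unit {d : ℕ} (hd : 2 ≤ d) {U W : (Polynomial Ω)} (h : Rat d U W) (hW : IsUnit W)
    (hU : U.natDegree ≤ 1) : False := by
  have h1 := natDegree_eq_zero_of_isUnit hW
  have h2 := h.2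
  rw [h1] at h2
  omega

lemma form_ne {d : ℕ} (hd : 2 ≤ d) {U W : (Polynomial Ω)} (h : Rat d U W) {v : Ω × Ω} (hv : v ≠ 0) :
    C v.2 * U + C (-v.1) * W ≠ 0 := by
  intro h0
  by_cases h2 : v.2 = 0
  · have h1 : v.1 ≠ 0 := fun h => hv (Prod.ext h h2)
    rw [h2, C_0, zero_mul, zero_add] at h0
    have hW : W = 0 := by
      rcases mul_eq_zero.mp h0 with h3 | h3
      · rw [C_eq_zero, neg_eq_zero] at h3
        exact absurd h3 h1
      · exact h3
    have h3 := h.1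
    rw [hW, isCoprime_zero_right] at h3
    have h4 := natDegree_eq_zero_of_isUnit h3
    have h5 := h.2
    rw [hW, h4, natDegree_zero] at h5
    simp only [max_self] at h5
    omega
  · have hU : U = C (v.1 / v.2) * W := by
      have e1 : C v.2 * U = C v.1 * W := by
        rw [C_neg] at h0
        linear_combination h0
      have e2 : C (v.2⁻¹) * (C v.2 * U) = C (v.2⁻¹) * (C v.1 * W) := by rw [e1]
      rw [← mul_assoc, ← C_mul, inv_mul_cancel₀ h2, C_1, one_mul, ← mul_assoc, ← C_mul] at e2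
      rw [e2]
      congr 2
      field_simp
    have h3 : IsCoprime W W := by
      have h4 := h.1
      rw [hU] at h4
      exact h4.of_mul_left_right
    have h5 : IsUnit W := isCoprime_self.mp h3
    refine not_unit hd h h5 ?_
    rw [hU]
    refine (natDegree_C_mul_le _ _).trans ?_
    rw [natDegree_eq_zero_of_isUnit h5]
    omega

lemma fix_ne {d : ℕ} (hd : 2 ≤ d) {U W : (Polynomial Ω)} (h : Rat d U W) : U + C (-1) * X * W ≠ 0 := by
  intro h0
  have hU : U = X * W := by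
    rw [C_neg, C_1] at h0
    linear_combination h0
  have h3 : IsCoprime W W := by
    have h4 := h.1
    rw [hU] at h4
    exact h4.of_mul_left_right
  have h5 : IsUnit W := isCoprime_self.mp h3
  refine not_unit hd h h5 ?_
  rw [hU]
  refine natDegree_mul_le.trans ?_
  rw [natDegree_eq_zero_of_isUnit h5]
  exact natDegree_X_le

lemma bK_one {d : ℕ} {U W : (Polynomial Ω)} (h : Rat d U W) (t : Ω) :
    bK d U W (t, 1) = (U.eval t, W.eval t) := by
  unfold bK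
  rw [hev_one d U (h.2 ▸ le_max_left _ _), hev_one d W (h.2 ▸ le_max_right _ _)]

/-- the vectors mapped to a `κ`-vector -/
lemma Kv_image [IsAlgClosed κ] {d : ℕ} (hd : 2 ≤ d) {U W : (Polynomial Ω)} (h : Rat d U W) (hU : U ∈ Ks κ)
    (hW : W ∈ Ks κ) {y z : Ω × Ω} (hy : y ≠ 0) (hz : Kv κ z) (hyz : wd (bK d U W y) z = 0) :
    Kv κ y := by
  obtain ⟨α, v, hα, hv1, hv2, hv, rfl⟩ := hz
  rw [wd_smul_right] at hyz
  have h1 := (mul_eq_zero.mp hyz).resolve_left hα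
  by_cases h2 : y.2 = 0
  · exact Kv_of_zero hy h2
  · apply Kv_of_mem h2
    rw [eq_smul h2, bK_smul, wd_smul_left, bK_one h] at h1
    have h3 := (mul_eq_zero.mp h1).resolve_left (pow_ne_zero _ h2)
    refine root_mem κ (P := C v.2 * U + C (-v.1) * W) ?_ (form_ne hd h hv) ?_
    · exact Subsemiring.add_mem _ (Subsemiring.mul_mem _ (C_mem κ hv2) hU)
        (Subsemiring.mul_mem _ (C_mem κ (κ.neg_mem hv1)) hW)
    · rw [eval_add, eval_mul, eval_mul, eval_C, eval_C]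
      unfold wd at h3
      simp only at h3
      linear_combination h3

/-- fixed vectors -/
lemma Kv_fix [IsAlgClosed κ] {d : ℕ} (hd : 2 ≤ d) {U W : (Polynomial Ω)} (h : Rat d U W) (hU : U ∈ Ks κ)
    (hW : W ∈ Ks κ) {y : Ω × Ω} (hy : y ≠ 0) (hyz : wd (bK d U W y) y = 0) :
    Kv κ y := by
  by_cases h2 : y.2 = 0
  · exact Kv_of_zero hy h2
  · apply Kv_of_mem h2
    rw [eq_smul h2, bK_smul, wd_smul_left, wd_smul_right, bK_one h] at hyz
    have h3 := (mul_eq_zero.mp ((mul_eq_zero.mp hyz).resolve_left (pow_ne_zero _ h2))).resolve_left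
      (by simpa using h2)
    refine root_mem κ (P := U + C (-1) * X * W) ?_ (fix_ne hd h) ?_
    · exact Subsemiring.add_mem _ hU
        (Subsemiring.mul_mem _ (Subsemiring.mul_mem _ (C_mem κ (κ.neg_mem κ.one_mem)) (X_mem κ)) hW)
    · rw [eval_add, eval_mul, eval_mul, eval_C, eval_X]
      unfold wd at h3
      simp only [mul_one] at h3
      linear_combination h3

/-- the three vectors `0`, `1`, `∞` -/
lemma three {x : Fin 3 → Ω × Ω} (hinj : Function.Injective x)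
    (hx : ∀ i, x i ∈ ({(0, 1), (1, 1), (1, 0)} : Set (Ω × Ω))) :
    (∃ i, x i = (0, 1)) ∧ (∃ i, x i = (1, 1)) ∧ (∃ i, x i = (1, 0)) := by
  have h01 : x 0 ≠ x 1 := fun h => absurd (hinj h) (by decide)
  have h02 : x 0 ≠ x 2 := fun h => absurd (hinj h) (by decide)
  have h12 : x 1 ≠ x 2 := fun h => absurd (hinj h) (by decide)
  have e0 := hx 0
  have e1 := hx 1
  have e2 := hx 2
  simp only [Set.mem_insert_iff, Set.mem_singleton_iff] at e0 e1 e2
  rcases e0 with e0 | e0 | e0 <;> rcases e1 with e1 | e1 | e1 <;> rcases e2 with e2 | e2 | e2 <;>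
    first
    | exact absurd (e0.trans e1.symm) h01
    | exact absurd (e0.trans e2.symm) h02
    | exact absurd (e1.trans e2.symm) h12
    | exact ⟨⟨0, e0⟩, ⟨1, e1⟩, ⟨2, e2⟩⟩
    | exact ⟨⟨0, e0⟩, ⟨2, e2⟩, ⟨1, e1⟩⟩
    | exact ⟨⟨1, e1⟩, ⟨0, e0⟩, ⟨2, e2⟩⟩
    | exact ⟨⟨1, e1⟩, ⟨2, e2⟩, ⟨0, e0⟩⟩
    | exact ⟨⟨2, e2⟩, ⟨0, e0⟩, ⟨1, e1⟩⟩
    | exact ⟨⟨2, e2⟩, ⟨1, e1⟩, ⟨0, e0⟩⟩

/-- a matrix which maps `0`, `1`, `∞` to `κ`-points -/
lemma mat_mem {a b c e : Ω} (hdet : a * e - b * c ≠ 0) (h1 : Kv κ (a, c)) (h2 : Kv κ (b, e))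
    (h3 : Kv κ (a + b, c + e)) :
    ∃ γ a' b' c' e' : Ω, γ ≠ 0 ∧ a' ∈ κ ∧ b' ∈ κ ∧ c' ∈ κ ∧ e' ∈ κ ∧ a = γ * a' ∧ b = γ * b' ∧
      c = γ * c' ∧ e = γ * e' ∧ a' * e' - b' * c' ≠ 0 := by
  obtain ⟨α, v, hα, hv1, hv2, -, hv⟩ := h1
  obtain ⟨β, w, hβ, hw1, hw2, -, hw⟩ := h2
  obtain ⟨γ, z, hγ, hz1, hz2, -, hz⟩ := h3
  have ha : a = α * v.1 := congrArg Prod.fst hv
  have hc : c = α * v.2 := congrArg Prod.snd hv
  have hb : b = β * w.1 := congrArg Prod.fst hw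
  have he : e = β * w.2 := congrArg Prod.snd hw
  have hs1 : a + b = γ * z.1 := congrArg Prod.fst hz
  have hs2 : c + e = γ * z.2 := congrArg Prod.snd hz
  have hD : v.1 * w.2 - w.1 * v.2 ≠ 0 := by
    intro h
    apply hdet
    rw [ha, hc, hb, he]
    linear_combination (α * β) * h
  have hDm : v.1 * w.2 - w.1 * v.2 ∈ κ := κ.sub_mem (κ.mul_mem hv1 hw2) (κ.mul_mem hw1 hv2)
  have hA : α = γ * ((z.1 * w.2 - w.1 * z.2) / (v.1 * w.2 - w.1 * v.2)) := by
    rw [mul_div_assoc', eq_div_iff hD]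
    rw [ha, hb] at hs1
    rw [hc, he] at hs2
    linear_combination w.2 * hs1 - w.1 * hs2
  have hB : β = γ * ((v.1 * z.2 - z.1 * v.2) / (v.1 * w.2 - w.1 * v.2)) := by
    rw [mul_div_assoc', eq_div_iff hD]
    rw [ha, hb] at hs1
    rw [hc, he] at hs2
    linear_combination v.1 * hs2 - v.2 * hs1
  have m1 : (z.1 * w.2 - w.1 * z.2) / (v.1 * w.2 - w.1 * v.2) ∈ κ :=
    κ.div_mem (κ.sub_mem (κ.mul_mem hz1 hw2) (κ.mul_mem hw1 hz2)) hDm
  have m2 : (v.1 * z.2 - z.1 * v.2) / (v.1 * w.2 - w.1 * v.2) ∈ κ :=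
    κ.div_mem (κ.sub_mem (κ.mul_mem hv1 hz2) (κ.mul_mem hz1 hv2)) hDm
  set r₁ := (z.1 * w.2 - w.1 * z.2) / (v.1 * w.2 - w.1 * v.2) with hr₁
  set r₂ := (v.1 * z.2 - z.1 * v.2) / (v.1 * w.2 - w.1 * v.2) with hr₂
  refine ⟨γ, r₁ * v.1, r₂ * w.1, r₁ * v.2, r₂ * w.2, hγ, κ.mul_mem m1 hv1, κ.mul_mem m2 hw1,
    κ.mul_mem m1 hv2, κ.mul_mem m2 hw2, ?_, ?_, ?_, ?_, ?_⟩
  · rw [ha, hA]; ring
  · rw [hb, hB]; ring
  · rw [hc, hA]; ring
  · rw [he, hB]; ring
  · intro h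
    apply hdet
    rw [ha, hc, hb, he, hA, hB]
    linear_combination γ ^ 2 * h

/-- the coefficients of the conjugate -/
lemma coeff_conj [CharZero Ω] {d : ℕ} (hd : 2 ≤ d) {p q U W : (Polynomial Ω)} (hR : Rat d p q)
    (hU : U ∈ Ks κ) (hW : W ∈ Ks κ) {γ a b c e : Ω} (hγ : γ ≠ 0) (ha : a ∈ κ) (hb : b ∈ κ)
    (hc' : c ∈ κ) (he : e ∈ κ) (hdet : a * e - b * c ≠ 0)
    (hCJ : ∀ Z : Ω × Ω, bK d U W (lm (γ * a) (γ * b) (γ * c) (γ * e) Z) =
      lm (γ * a) (γ * b) (γ * c) (γ * e) (bK d p q Z)) :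
    ∃ P Q : (Polynomial Ω), P ∈ Ks κ ∧ Q ∈ Ks κ ∧ p = C (γ ^ (d - 1)) * P ∧ q = C (γ ^ (d - 1)) * Q := by
  have hL1 : C a * X + C b ∈ Ks κ :=
    Subsemiring.add_mem _ (Subsemiring.mul_mem _ (C_mem κ ha) (X_mem κ)) (C_mem κ hb)
  have hL2 : C c * X + C e ∈ Ks κ :=
    Subsemiring.add_mem _ (Subsemiring.mul_mem _ (C_mem κ hc') (X_mem κ)) (C_mem κ he)
  have hHU := hc_mem κ d hU hL1 hL2
  have hHW := hc_mem κ d hW hL1 hL2
  have hDm : a * e - b * c ∈ κ := κ.sub_mem (κ.mul_mem ha he) (κ.mul_mem hb hc')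
  have key : ∀ x : Ω, a * p.eval x + b * q.eval x =
      γ ^ (d - 1) * (hc d U (C a * X + C b) (C c * X + C e)).eval x ∧
      c * p.eval x + e * q.eval x =
      γ ^ (d - 1) * (hc d W (C a * X + C b) (C c * X + C e)).eval x := by
    intro x
    have h1 := hCJ (x, 1)
    rw [bK_one hR] at h1
    have h2 : lm (γ * a) (γ * b) (γ * c) (γ * e) ((x, 1) : Ω × Ω) =
        γ • ((a * x + b, c * x + e) : Ω × Ω) := by
      unfold lm
      ext
      · simp only [Prod.smul_fst, smul_eq_mul]; ring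
      · simp only [Prod.smul_snd, smul_eq_mul]; ring
    rw [h2, bK_smul] at h1
    have e0 : γ ^ d = γ * γ ^ (d - 1) := by rw [← pow_succ']; congr 1; omega
    have e1 := congrArg Prod.fst h1
    have e2 := congrArg Prod.snd h1
    simp only [bK, Prod.smul_fst, Prod.smul_snd, smul_eq_mul, lm] at e1 e2
    rw [hc_eval, hc_eval]
    simp only [eval_add, eval_mul, eval_C, eval_X]
    rw [e0] at e1 e2
    constructor
    · apply mul_left_cancel₀ hγ
      linear_combination -e1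
    · apply mul_left_cancel₀ hγ
      linear_combination -e2
  have n1 : (a * e - b * c)⁻¹ ∈ κ := κ.inv_mem hDm
  refine ⟨C ((a * e - b * c)⁻¹) * (C e * hc d U (C a * X + C b) (C c * X + C e) +
      C (-b) * hc d W (C a * X + C b) (C c * X + C e)),
    C ((a * e - b * c)⁻¹) * (C a * hc d W (C a * X + C b) (C c * X + C e) +
      C (-c) * hc d U (C a * X + C b) (C c * X + C e)), ?_, ?_, ?_, ?_⟩
  · exact Subsemiring.mul_mem _ (C_mem κ n1) (Subsemiring.add_mem _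
      (Subsemiring.mul_mem _ (C_mem κ he) hHU)
      (Subsemiring.mul_mem _ (C_mem κ (κ.neg_mem hb)) hHW))
  · exact Subsemiring.mul_mem _ (C_mem κ n1) (Subsemiring.add_mem _
      (Subsemiring.mul_mem _ (C_mem κ ha) hHW)
      (Subsemiring.mul_mem _ (C_mem κ (κ.neg_mem hc')) hHU))
  · apply Polynomial.funext
    intro x
    obtain ⟨k1, k2⟩ := key x
    simp only [eval_mul, eval_add, eval_C]
    apply mul_left_cancel₀ hdet
    have e3 : (a * e - b * c) * (γ ^ (d - 1) * ((a * e - b * c)⁻¹ *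
        (e * (hc d U (C a * X + C b) (C c * X + C e)).eval x +
          -b * (hc d W (C a * X + C b) (C c * X + C e)).eval x))) =
        ((a * e - b * c) * (a * e - b * c)⁻¹) * (γ ^ (d - 1) *
        (e * (hc d U (C a * X + C b) (C c * X + C e)).eval x +
          -b * (hc d W (C a * X + C b) (C c * X + C e)).eval x)) := by ring
    rw [e3, mul_inv_cancel₀ hdet, one_mul]
    linear_combination e * k1 - b * k2
  · apply Polynomial.funext
    intro x
    obtain ⟨k1, k2⟩ := key x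
    simp only [eval_mul, eval_add, eval_C]
    apply mul_left_cancel₀ hdet
    have e3 : (a * e - b * c) * (γ ^ (d - 1) * ((a * e - b * c)⁻¹ *
        (a * (hc d W (C a * X + C b) (C c * X + C e)).eval x +
          -c * (hc d U (C a * X + C b) (C c * X + C e)).eval x))) =
        ((a * e - b * c) * (a * e - b * c)⁻¹) * (γ ^ (d - 1) *
        (a * (hc d W (C a * X + C b) (C c * X + C e)).eval x +
          -c * (hc d U (C a * X + C b) (C c * X + C e)).eval x)) := by ring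
    rw [e3, mul_inv_cancel₀ hdet, one_mul]
    linear_combination a * k2 - c * k1

/-- ISO -/
theorem t_ISO (hCNJ : S_CNJ.{u}) : S_ISO.{u} := by
  intro Ω _ _ _ κ _ d hd p q hR hT h1 hcc
  obtain ⟨a, b, c, e, s, u, w, hs, hRu, hcoef, hCJ⟩ := (hCNJ Ω d hd p q hR).2.2 κ hcc
  obtain ⟨t, ht, hCJ'⟩ := CJ_scale hd hCJ hs
  have hRU := Rat_C hRu hs
  have hU : C s * u ∈ Ks κ := by
    rw [mem_Ks]
    intro n
    rw [coeff_C_mul]
    exact (hcoef n).1
  have hW : C s * w ∈ Ks κ := by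
    rw [mem_Ks]
    intro n
    rw [coeff_C_mul]
    exact (hcoef n).2
  generalize C s * u = U at *
  generalize C s * w = W at *
  generalize t * a = A at *
  generalize t * b = B at *
  generalize t * c = C' at *
  generalize t * e = E at *
  obtain ⟨hdet, hF⟩ := hCJ'
  obtain ⟨x, hinj, hx, htype⟩ := hT
  have hx0 : ∀ i, x i ≠ 0 := by
    intro i h
    have h2 := hx i
    rw [h] at h2
    simp only [Set.mem_insert_iff, Set.mem_singleton_iff] at h2
    rcases h2 with h2 | h2 | h2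
    · exact one_ne_zero (congrArg Prod.snd h2).symm
    · exact one_ne_zero (congrArg Prod.snd h2).symm
    · exact one_ne_zero (congrArg Prod.fst h2).symm
  have hy0 : ∀ i, lm A B C' E (x i) ≠ 0 := fun i => lm_ne hdet (hx0 i)
  have tr : ∀ i j, wd (bK d p q (x i)) (x j) = 0 →
      wd (bK d U W (lm A B C' E (x i))) (lm A B C' E (x j)) = 0 := by
    intro i j h
    rw [hF, wd_lm, h, mul_zero]
  have hall : ∀ i, Kv κ (lm A B C' E (x i)) := by
    rcases htype with h | ⟨h, h', h''⟩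
    · intro i
      exact Kv_fix hd hRU hU hW (hy0 i) (tr i i (h i))
    · have k0 := Kv_fix hd hRU hU hW (hy0 0) (tr 0 0 h)
      have k1 := Kv_image hd hRU hU hW (hy0 1) k0 (tr 1 0 h')
      have k2 := Kv_image hd hRU hU hW (hy0 2) k1 (tr 2 1 h'')
      intro i
      fin_cases i
      · exact k0
      · exact k1
      · exact k2
  obtain ⟨⟨i0, h0⟩, ⟨i1, h1'⟩, ⟨i2, h2⟩⟩ := three hinj hx
  have v0 := hall i0
  have v1 := hall i1
  have v2 := hall i2
  rw [h0] at v0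
  rw [h1'] at v1
  rw [h2] at v2
  have e0 : lm A B C' E ((0, 1) : Ω × Ω) = (B, E) := by
    unfold lm; ext <;> simp
  have e1 : lm A B C' E ((1, 1) : Ω × Ω) = (A + B, C' + E) := by
    unfold lm; ext <;> simp
  have e2 : lm A B C' E ((1, 0) : Ω × Ω) = (A, C') := by
    unfold lm; ext <;> simp
  rw [e0] at v0
  rw [e1] at v1
  rw [e2] at v2
  obtain ⟨γ, a', b', c', e', hγ, ha, hb, hc', he, rfl, rfl, rfl, rfl, hdet'⟩ :=
    mat_mem hdet v2 v0 v1
  obtain ⟨P, Q, hP, hQ, hp, hq⟩ := coeff_conj hd hR hU hW hγ ha hb hc' he hdet' hF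
  rw [mem_Ks] at hP hQ
  have hτ : γ ^ (d - 1) ∈ κ := by
    obtain ⟨n, hn⟩ := h1
    rcases hn with hn | hn
    · rw [hp, coeff_C_mul] at hn
      rw [eq_inv_of_mul_eq_one_left hn]
      exact κ.inv_mem (hP n)
    · rw [hq, coeff_C_mul] at hn
      rw [eq_inv_of_mul_eq_one_left hn]
      exact κ.inv_mem (hQ n)
  intro n
  constructor
  · rw [hp, coeff_C_mul]
    exact κ.mul_mem hτ (hP n)
  · rw [hq, coeff_C_mul]
    exact κ.mul_mem hτ (hQ n)

end Pool.Agent.Q274.OP
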