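import Pool.Agent.Q274.OP.Iso

/-!
# Project OP, job NF
-/

set_option autoImplicit false

namespace Pool.Agent.Q274.OP

open Pool.Agent.Q103.OP Pool.Agent.Q103.OP.Bas Finset Polynomial Pool.Agent.W277.UH
open Pool.Agent.Y706.CH (bK)

universe u

variable {L : Type u} [Field L]

/-- adjoin a root -/
lemma ext_root (E : IntermediateField L (AlgebraicClosure L)) [FiniteDimensional L E] {N m : ℕ}
    (hN : Module.finrank L E ≤ N) {P : Polynomial (AlgebraicClosure L)}
    (hP : P ∈ Ks E.toSubfield) (h0 : P ≠ 0) (hdeg : P.natDegree ≤ m) {t : AlgebraicClosure L}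
    (ht : P.eval t = 0) : ∃ E' : IntermediateField L (AlgebraicClosure L), E ≤ E' ∧ t ∈ E' ∧
      FiniteDimensional L E' ∧ Module.finrank L E' ≤ N * m := by
  rw [mem_Ks] at hP
  have h1 : P ∈ lifts (algebraMap E (AlgebraicClosure L)) := by
    rw [lifts_iff_coeff_lifts]
    intro n
    exact ⟨⟨P.coeff n, hP n⟩, rfl⟩
  obtain ⟨P0, hP0⟩ := (mem_lifts P).mp h1
  have h2 : P0 ≠ 0 := by
    rintro rfl
    rw [Polynomial.map_zero] at hP0
    exact h0 hP0.symm
  have hae : aeval t P0 = 0 := by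
    rw [aeval_def, ← eval_map, hP0, ht]
  have hint : IsIntegral E t := by
    rw [← isAlgebraic_iff_isIntegral]
    exact ⟨P0, h2, hae⟩
  have h3 : (minpoly E t).natDegree ≤ m := by
    refine le_trans ?_ hdeg
    rw [← hP0, natDegree_map]
    exact natDegree_le_of_dvd (minpoly.dvd E t hae) h2
  have hfd : FiniteDimensional E (IntermediateField.adjoin E {t}) :=
    IntermediateField.adjoin.finiteDimensional hint
  have h4 : Module.finrank E (IntermediateField.adjoin E {t}) ≤ m := by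
    rw [IntermediateField.adjoin.finrank hint]
    exact h3
  refine ⟨(IntermediateField.adjoin E {t}).restrictScalars L, ?_, ?_, ?_, ?_⟩
  · intro y hy
    rw [IntermediateField.mem_restrictScalars]
    exact (IntermediateField.adjoin E {t}).algebraMap_mem ⟨y, hy⟩
  · rw [IntermediateField.mem_restrictScalars]
    exact IntermediateField.mem_adjoin_simple_self E t
  · exact FiniteDimensional.trans L E (IntermediateField.adjoin E {t})
  · have h5 : Module.finrank L E * Module.finrank E (IntermediateField.adjoin E {t}) =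
      Module.finrank L (IntermediateField.adjoin E {t}) :=
      Module.finrank_mul_finrank L E (IntermediateField.adjoin E {t})
    calc Module.finrank L ((IntermediateField.adjoin E {t}).restrictScalars L) =
        Module.finrank L (IntermediateField.adjoin E {t}) := rfl
      _ = Module.finrank L E * Module.finrank E (IntermediateField.adjoin E {t}) := h5.symm
      _ ≤ N * m := Nat.mul_le_mul hN h4

lemma dn_le {E : IntermediateField L (AlgebraicClosure L)} [FiniteDimensional L E] {N : ℕ}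
    (hN : Module.finrank L E ≤ N) {x : AlgebraicClosure L} (hx : x ∈ E) : dn L x ≤ N := by
  unfold dn
  refine le_trans ?_ hN
  have h1 : IntermediateField.adjoin L {x} ≤ E := by
    rw [IntermediateField.adjoin_simple_le_iff]
    exact hx
  exact IntermediateField.finrank_le_of_le_right h1

lemma Kv_mono {E E' : IntermediateField L (AlgebraicClosure L)} (h : E ≤ E')
    {y : AlgebraicClosure L × AlgebraicClosure L} (hy : Kv E.toSubfield y) :
    Kv E'.toSubfield y := by
  obtain ⟨α, v, h1, h2, h3, h4, h5⟩ := hy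
  exact ⟨α, v, h1, h h2, h h3, h4, h5⟩

lemma Ks_map (E : IntermediateField L (AlgebraicClosure L)) (p : Polynomial L) :
    p.map (algebraMap L (AlgebraicClosure L)) ∈ Ks E.toSubfield := by
  rw [mem_Ks]
  intro n
  rw [coeff_map]
  exact E.algebraMap_mem _

/-- a preimage -/
lemma step_image (E : IntermediateField L (AlgebraicClosure L)) [FiniteDimensional L E] {N : ℕ}
    (hN : Module.finrank L E ≤ N) {d : ℕ} (hd : 2 ≤ d) {U W : Polynomial (AlgebraicClosure L)}
    (h : Rat d U W) (hU : U ∈ Ks E.toSubfield) (hW : W ∈ Ks E.toSubfield)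
    {y z : AlgebraicClosure L × AlgebraicClosure L} (hy : y ≠ 0) (hz : Kv E.toSubfield z)
    (hyz : wd (bK d U W y) z = 0) :
    ∃ E' : IntermediateField L (AlgebraicClosure L), E ≤ E' ∧ Kv E'.toSubfield y ∧
      FiniteDimensional L E' ∧ Module.finrank L E' ≤ N * (d + 1) := by
  obtain ⟨α, v, hα, hv1, hv2, hv, rfl⟩ := hz
  rw [wd_smul_right] at hyz
  have h1 := (mul_eq_zero.mp hyz).resolve_left hα
  by_cases h2 : y.2 = 0
  · refine ⟨E, le_refl _, Kv_of_zero hy h2, inferInstance, hN.trans ?_⟩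
    exact Nat.le_mul_of_pos_right _ (by omega)
  · rw [eq_smul h2, bK_smul, wd_smul_left, bK_one h] at h1
    have h3 := (mul_eq_zero.mp h1).resolve_left (pow_ne_zero _ h2)
    obtain ⟨E', hle, hmem, hfd, hfr⟩ := ext_root E hN (P := C v.2 * U + C (-v.1) * W) (m := d + 1)
      (Subsemiring.add_mem _ (Subsemiring.mul_mem _ (C_mem _ hv2) hU)
        (Subsemiring.mul_mem _ (C_mem _ (E.toSubfield.neg_mem hv1)) hW)) (form_ne hd h hv)
      (by
        refine (natDegree_add_le _ _).trans (max_le ?_ ?_)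
        · refine (natDegree_C_mul_le _ _).trans ?_
          have := h.2
          omega
        · refine (natDegree_C_mul_le _ _).trans ?_
          have := h.2
          omega) (t := y.1 / y.2) (by
        rw [eval_add, eval_mul, eval_mul, eval_C, eval_C]
        unfold wd at h3
        simp only at h3
        linear_combination h3)
    exact ⟨E', hle, Kv_of_mem h2 hmem, hfd, hfr⟩

/-- a fixed vector -/
lemma step_fix (E : IntermediateField L (AlgebraicClosure L)) [FiniteDimensional L E] {N : ℕ}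
    (hN : Module.finrank L E ≤ N) {d : ℕ} (hd : 2 ≤ d) {U W : Polynomial (AlgebraicClosure L)}
    (h : Rat d U W) (hU : U ∈ Ks E.toSubfield) (hW : W ∈ Ks E.toSubfield)
    {y : AlgebraicClosure L × AlgebraicClosure L} (hy : y ≠ 0) (hyz : wd (bK d U W y) y = 0) :
    ∃ E' : IntermediateField L (AlgebraicClosure L), E ≤ E' ∧ Kv E'.toSubfield y ∧
      FiniteDimensional L E' ∧ Module.finrank L E' ≤ N * (d + 1) := by
  by_cases h2 : y.2 = 0
  · refine ⟨E, le_refl _, Kv_of_zero hy h2, inferInstance, hN.trans ?_⟩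
    exact Nat.le_mul_of_pos_right _ (by omega)
  · rw [eq_smul h2, bK_smul, wd_smul_left, wd_smul_right, bK_one h] at hyz
    have h3 := (mul_eq_zero.mp ((mul_eq_zero.mp hyz).resolve_left (pow_ne_zero _ h2))).resolve_left
      (by simpa using h2)
    obtain ⟨E', hle, hmem, hfd, hfr⟩ := ext_root E hN (P := U + C (-1) * X * W) (m := d + 1)
      (Subsemiring.add_mem _ hU (Subsemiring.mul_mem _ (Subsemiring.mul_mem _
        (C_mem _ (E.toSubfield.neg_mem E.toSubfield.one_mem)) (X_mem _)) hW)) (fix_ne hd h)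
      (by
        refine (natDegree_add_le _ _).trans (max_le ?_ ?_)
        · have := h.2
          omega
        · refine natDegree_mul_le.trans ?_
          have h5 : (C (-1) * X : Polynomial (AlgebraicClosure L)).natDegree ≤ 1 :=
            (natDegree_C_mul_le _ _).trans natDegree_X_le
          have := h.2
          omega) (t := y.1 / y.2) (by
        rw [eval_add, eval_mul, eval_mul, eval_C, eval_X]
        unfold wd at h3
        simp only [mul_one] at h3
        linear_combination h3)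
    exact ⟨E', hle, Kv_of_mem h2 hmem, hfd, hfr⟩

lemma Ks_mono {E E' : IntermediateField L (AlgebraicClosure L)} (h : E ≤ E')
    {P : Polynomial (AlgebraicClosure L)} (hP : P ∈ Ks E.toSubfield) : P ∈ Ks E'.toSubfield := by
  rw [mem_Ks] at hP ⊢
  exact fun n => h (hP n)

lemma Wr_mem {Ω : Type u} [Field Ω] (κ : Subfield Ω) {U W : Polynomial Ω} (hU : U ∈ Ks κ)
    (hW : W ∈ Ks κ) : Wr U W ∈ Ks κ := by
  have hd : ∀ P : Polynomial Ω, P ∈ Ks κ → derivative P ∈ Ks κ := by
    intro P hP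
    rw [mem_Ks] at hP ⊢
    intro n
    rw [coeff_derivative]
    have : ((n : Ω) + 1) ∈ κ := κ.add_mem (natCast_mem κ n) κ.one_mem
    exact κ.mul_mem (hP _) this
  unfold Wr
  rw [mem_Ks]
  intro n
  rw [coeff_sub]
  exact κ.sub_mem ((mem_Ks κ).mp (Subsemiring.mul_mem _ (hd U hU) hW) n)
    ((mem_Ks κ).mp (Subsemiring.mul_mem _ hU (hd W hW)) n)

/-- all three points are defined over a field of bounded degree -/
lemma three_points {d : ℕ} (hd : 2 ≤ d) {p q : Polynomial L}
    (h : Rat d (p.map (algebraMap L (AlgebraicClosure L)))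
      (q.map (algebraMap L (AlgebraicClosure L))))
    {x : Fin 3 → AlgebraicClosure L × AlgebraicClosure L} (hx : ∀ i, x i ≠ 0)
    (ht : (∀ i, wd (bK d (p.map (algebraMap L (AlgebraicClosure L)))
      (q.map (algebraMap L (AlgebraicClosure L))) (x i)) (x i) = 0) ∨
      (wd (bK d (p.map (algebraMap L (AlgebraicClosure L)))
        (q.map (algebraMap L (AlgebraicClosure L))) (x 0)) (x 0) = 0 ∧
      wd (bK d (p.map (algebraMap L (AlgebraicClosure L)))
        (q.map (algebraMap L (AlgebraicClosure L))) (x 1)) (x 0) = 0 ∧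
        wd (bK d (p.map (algebraMap L (AlgebraicClosure L)))
        (q.map (algebraMap L (AlgebraicClosure L))) (x 2)) (x 1) = 0)) :
    ∃ E : IntermediateField L (AlgebraicClosure L), FiniteDimensional L E ∧
      Module.finrank L E ≤ 1 * (d + 1) * (d + 1) * (d + 1) ∧ ∀ i, Kv E.toSubfield (x i) := by
  have hfd : FiniteDimensional L (⊥ : IntermediateField L (AlgebraicClosure L)) := inferInstance
  have hfr : Module.finrank L (⊥ : IntermediateField L (AlgebraicClosure L)) ≤ 1 := by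
    rw [IntermediateField.finrank_bot]
  rcases ht with ht | ⟨ht0, ht1, ht2⟩
  · obtain ⟨E0, le0, k0, fd0, fr0⟩ := step_fix ⊥ hfr hd h (Ks_map _ p) (Ks_map _ q) (hx 0) (ht 0)
    obtain ⟨E1, le1, k1, fd1, fr1⟩ := step_fix E0 fr0 hd h (Ks_map _ p) (Ks_map _ q) (hx 1) (ht 1)
    obtain ⟨E2, le2, k2, fd2, fr2⟩ := step_fix E1 fr1 hd h (Ks_map _ p) (Ks_map _ q) (hx 2) (ht 2)
    refine ⟨E2, fd2, fr2, ?_⟩
    intro i
    fin_cases i
    · exact Kv_mono (le1.trans le2) k0
    · exact Kv_mono le2 k1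
    · exact k2
  · obtain ⟨E0, le0, k0, fd0, fr0⟩ := step_fix ⊥ hfr hd h (Ks_map _ p) (Ks_map _ q) (hx 0) ht0
    obtain ⟨E1, le1, k1, fd1, fr1⟩ :=
      step_image E0 fr0 hd h (Ks_map _ p) (Ks_map _ q) (hx 1) k0 ht1
    obtain ⟨E2, le2, k2, fd2, fr2⟩ :=
      step_image E1 fr1 hd h (Ks_map _ p) (Ks_map _ q) (hx 2) k1 ht2
    refine ⟨E2, fd2, fr2, ?_⟩
    intro i
    fin_cases i
    · exact Kv_mono (le1.trans le2) k0
    · exact Kv_mono le2 k1
    · exact k2

lemma inj3 {K : Type u} [Field K] :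
    Function.Injective (![(0, 1), (1, 0), (1, 1)] : Fin 3 → K × K) := by
  have h1 : ((0, 1) : K × K) ≠ (1, 0) := fun h => one_ne_zero (congrArg Prod.snd h)
  have h2 : ((0, 1) : K × K) ≠ (1, 1) := fun h => one_ne_zero (congrArg Prod.fst h).symm
  have h3 : ((1, 0) : K × K) ≠ (1, 1) := fun h => one_ne_zero (congrArg Prod.snd h).symm
  intro i j hij
  fin_cases i <;> fin_cases j
  · rfl
  · exact absurd hij h1
  · exact absurd hij h2
  · exact absurd hij h1.symm
  · rfl
  · exact absurd hij h3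
  · exact absurd hij h2.symm
  · exact absurd hij h3.symm
  · rfl

lemma mem3 {K : Type u} [Field K] (i : Fin 3) :
    (![(0, 1), (1, 0), (1, 1)] : Fin 3 → K × K) i ∈ ({(0, 1), (1, 1), (1, 0)} : Set (K × K)) := by
  fin_cases i
  · exact Or.inl rfl
  · exact Or.inr (Or.inr rfl)
  · exact Or.inr (Or.inl rfl)

/-- NF -/
theorem t_NF (hTRI : S_TRI.{u}) (hCNJ : S_CNJ.{u}) : S_NF.{u} := by
  intro d hd
  refine ⟨1 * (d + 1) * (d + 1) * (d + 1) * (2 * d - 2), ?_⟩
  intro L _ _ p q hR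
  have hR' := Rat_mp (algebraMap L (AlgebraicClosure L)) hR
  obtain ⟨x, hx0, hx1, ht⟩ := hTRI (AlgebraicClosure L) d hd _ _ hR'
  obtain ⟨E, hfd, hfr, hKv⟩ := three_points hd hR' hx0 ht
  choose α v hα hv1 hv2 hv0 hxv using hKv
  set P := p.map (algebraMap L (AlgebraicClosure L)) with hPdef
  set Q := q.map (algebraMap L (AlgebraicClosure L)) with hQdef
  have hwd : ∀ i j, i ≠ j → wd (v i) (v j) ≠ 0 := by
    intro i j hij h
    apply hx1 i j hij
    rw [hxv i, hxv j, wd_smul_left, wd_smul_right, h, mul_zero, mul_zero]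
  have htr : ∀ i j, wd (bK d P Q (x i)) (x j) = 0 → wd (bK d P Q (v i)) (v j) = 0 := by
    intro i j h
    rw [hxv i, hxv j, bK_smul, wd_smul_left, wd_smul_right] at h
    exact (mul_eq_zero.mp ((mul_eq_zero.mp h).resolve_left (pow_ne_zero _ (hα i)))).resolve_left
      (hα j)
  have ht' : (∀ i, wd (bK d P Q (v i)) (v i) = 0) ∨
      (wd (bK d P Q (v 0)) (v 0) = 0 ∧ wd (bK d P Q (v 1)) (v 0) = 0 ∧
        wd (bK d P Q (v 2)) (v 1) = 0) := by
    rcases ht with ht | ⟨h1, h2, h3⟩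
    · exact Or.inl fun i => htr i i (ht i)
    · exact Or.inr ⟨htr 0 0 h1, htr 1 0 h2, htr 2 1 h3⟩
  have hE : ∀ y : AlgebraicClosure L, y ∈ E.toSubfield ↔ y ∈ E := fun y => Iff.rfl
  set κ := E.toSubfield with hκ
  have hwm : ∀ i j, wd (v i) (v j) ∈ κ := fun i j =>
    κ.sub_mem (κ.mul_mem (hv1 i) (hv2 j)) (κ.mul_mem (hv2 i) (hv1 j))
  obtain ⟨a, ha⟩ : ∃ a, a = (v 0).2 * wd (v 2) (v 1) := ⟨_, rfl⟩
  obtain ⟨b, hb⟩ : ∃ b, b = -(v 0).1 * wd (v 2) (v 1) := ⟨_, rfl⟩
  obtain ⟨c, hc'⟩ : ∃ c, c = (v 1).2 * wd (v 2) (v 0) := ⟨_, rfl⟩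
  obtain ⟨e, he⟩ : ∃ e, e = -(v 1).1 * wd (v 2) (v 0) := ⟨_, rfl⟩
  have ma : a ∈ κ := by rw [ha]; exact κ.mul_mem (hv2 0) (hwm 2 1)
  have mb : b ∈ κ := by rw [hb]; exact κ.mul_mem (κ.neg_mem (hv1 0)) (hwm 2 1)
  have mc : c ∈ κ := by rw [hc']; exact κ.mul_mem (hv2 1) (hwm 2 0)
  have me : e ∈ κ := by rw [he]; exact κ.mul_mem (κ.neg_mem (hv1 1)) (hwm 2 0)
  have hdet : a * e - b * c ≠ 0 := by
    have : a * e - b * c = wd (v 2) (v 1) * wd (v 2) (v 0) * wd (v 0) (v 1) := by
      rw [ha, hb, hc', he]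
      simp only [wd]
      ring
    rw [this]
    exact mul_ne_zero (mul_ne_zero (hwd _ _ (by decide)) (hwd _ _ (by decide)))
      (hwd _ _ (by decide))
  have mdet : a * e - b * c ∈ κ := κ.sub_mem (κ.mul_mem ma me) (κ.mul_mem mb mc)
  -- images
  have i0 : lm a b c e (v 0) = (wd (v 0) (v 1) * wd (v 2) (v 0)) • ((0, 1) : _ × _) := by
    rw [ha, hb, hc', he]
    unfold lm wd
    ext
    · simp only [Prod.smul_fst, smul_eq_mul]; ring
    · simp only [Prod.smul_snd, smul_eq_mul]; ring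
  have i1 : lm a b c e (v 1) = (wd (v 1) (v 0) * wd (v 2) (v 1)) • ((1, 0) : _ × _) := by
    rw [ha, hb, hc', he]
    unfold lm wd
    ext
    · simp only [Prod.smul_fst, smul_eq_mul]; ring
    · simp only [Prod.smul_snd, smul_eq_mul]; ring
  have i2 : lm a b c e (v 2) = (wd (v 2) (v 0) * wd (v 2) (v 1)) • ((1, 1) : _ × _) := by
    rw [ha, hb, hc', he]
    unfold lm wd
    ext
    · simp only [Prod.smul_fst, smul_eq_mul]; ring
    · simp only [Prod.smul_snd, smul_eq_mul]; ring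
  obtain ⟨hc1, hc2, -⟩ := hCNJ (AlgebraicClosure L) d hd P Q hR'
  obtain ⟨u1, w1, hR1, hCJ1⟩ := hc1 a b c e hdet
  obtain ⟨hCJ2, -⟩ := hc2 a b c e u1 w1 hR1 hCJ1
  obtain ⟨P', Q', hP', hQ', hu1, hw1⟩ := coeff_conj (κ := κ) (γ := 1) hd hR1 (Ks_map E p)
    (Ks_map E q) one_ne_zero (κ.div_mem me mdet) (κ.div_mem (κ.neg_mem mb) mdet)
    (κ.div_mem (κ.neg_mem mc) mdet) (κ.div_mem ma mdet) hCJ2.1
    (by
      intro Z
      simp only [one_mul]
      exact hCJ2.2 Z)
  rw [one_pow, C_1, one_mul] at hu1 hw1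
  rw [← hu1] at hP'
  rw [← hw1] at hQ'
  clear hu1 hw1
  obtain ⟨n, t, htn, ht0⟩ : ∃ (n : ℕ) (t : AlgebraicClosure L),
      (u1.coeff n = t ∨ w1.coeff n = t) ∧ t ≠ 0 := by
    by_contra hcon
    push Not at hcon
    have e1 : u1 = 0 := by
      ext n
      rw [coeff_zero]
      exact hcon n _ (Or.inl rfl)
    have e2 : w1 = 0 := by
      ext n
      rw [coeff_zero]
      exact hcon n _ (Or.inr rfl)
    have := hR1.2
    rw [e1, e2] at this
    simp at this
    omega
  have hs : t⁻¹ ≠ 0 := inv_ne_zero ht0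
  have htm : t ∈ κ := by
    rcases htn with h | h
    · rw [← h]; exact (mem_Ks κ).mp hP' n
    · rw [← h]; exact (mem_Ks κ).mp hQ' n
  have hsm : t⁻¹ ∈ κ := κ.inv_mem htm
  have hRs := Rat_C hR1 hs
  have hus : C t⁻¹ * u1 ∈ Ks κ := Subsemiring.mul_mem _ (C_mem κ hsm) hP'
  have hws : C t⁻¹ * w1 ∈ Ks κ := Subsemiring.mul_mem _ (C_mem κ hsm) hQ'
  have hbK : ∀ Z, bK d (C t⁻¹ * u1) (C t⁻¹ * w1) (lm a b c e Z) =
      t⁻¹ • lm a b c e (bK d P Q Z) := by
    intro Z
    rw [bK_C, hCJ1.2]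
  have hD : ∀ y, y ∈ κ → dn L y ≤ 1 * (d + 1) * (d + 1) * (d + 1) * (2 * d - 2) := by
    intro y hy
    refine (dn_le hfr hy).trans ?_
    exact Nat.le_mul_of_pos_right _ (by omega)
  refine ⟨a, b, c, e, t⁻¹, C t⁻¹ * u1, C t⁻¹ * w1, hdet, hs, hRs, ?_, ?_, hbK, hD a ma, hD b mb,
    hD c mc, hD e me, hD _ hsm, fun n => ⟨hD _ ((mem_Ks κ).mp hus n), hD _ ((mem_Ks κ).mp hws n)⟩,
    ?_⟩
  · refine ⟨![(0, 1), (1, 0), (1, 1)], inj3, mem3, ?_⟩
    · set G := bK d (C t⁻¹ * u1) (C t⁻¹ * w1) with hG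
      have key : ∀ (i j : Fin 3) (r r' : AlgebraicClosure L) (y z : AlgebraicClosure L × AlgebraicClosure L), r ≠ 0 → r' ≠ 0 →
          lm a b c e (v i) = r • y → lm a b c e (v j) = r' • z →
          wd (bK d P Q (v i)) (v j) = 0 → wd (G y) z = 0 := by
        intro i j r r' y z hr hr' h1 h2 h3
        have h4 := hbK (v i)
        rw [h1, hG, bK_smul, ← hG] at h4
        have h5 : wd (r ^ d • G y) (r' • z) = 0 := by
          rw [← h2, h4, wd_smul_left, wd_lm, h3, mul_zero, mul_zero]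
        rw [wd_smul_left, wd_smul_right] at h5
        exact (mul_eq_zero.mp ((mul_eq_zero.mp h5).resolve_left (pow_ne_zero _ hr))).resolve_left
          hr'
      have n0 : wd (v 0) (v 1) * wd (v 2) (v 0) ≠ 0 :=
        mul_ne_zero (hwd _ _ (by decide)) (hwd _ _ (by decide))
      have n1 : wd (v 1) (v 0) * wd (v 2) (v 1) ≠ 0 :=
        mul_ne_zero (hwd _ _ (by decide)) (hwd _ _ (by decide))
      have n2 : wd (v 2) (v 0) * wd (v 2) (v 1) ≠ 0 :=
        mul_ne_zero (hwd _ _ (by decide)) (hwd _ _ (by decide))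
      rcases ht' with h | ⟨h1, h2, h3⟩
      · left
        intro i
        fin_cases i
        · exact key 0 0 _ _ _ _ n0 n0 i0 i0 (h 0)
        · exact key 1 1 _ _ _ _ n1 n1 i1 i1 (h 1)
        · exact key 2 2 _ _ _ _ n2 n2 i2 i2 (h 2)
      · right
        exact ⟨key 0 0 _ _ _ _ n0 n0 i0 i0 h1, key 1 0 _ _ _ _ n1 n0 i1 i0 h2,
          key 2 1 _ _ _ _ n2 n1 i2 i1 h3⟩
  · refine ⟨n, ?_⟩
    rcases htn with h | h
    · left
      rw [coeff_C_mul, h, inv_mul_cancel₀ ht0]
    · right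
      rw [coeff_C_mul, h, inv_mul_cancel₀ ht0]
  · intro y hy
    obtain ⟨E', hle, hmem, hfd', hfr'⟩ := ext_root E hfr (Wr_mem κ hus hws) (Wr_ne hd hRs)
      (Wr_deg hd hRs) hy
    exact dn_le hfr' hmem

end Pool.Agent.Q274.OP
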